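import Pool.Agent.TH204.HP.H11

/-! # The Hasse principle and weak approximation for 100% of the varieties `yᵢ² - aᵢ zᵢ² = cᵢ (f(t) + k)`

Let `f` be any integral polynomial of degree at least `2` and let `aᵢ`, `cᵢ` be nonzero integers. The smooth varieties
`V_k : yᵢ² - aᵢ zᵢ² = cᵢ (f(t) + k) ≠ 0`, `i < r`, are geometrically rational of dimension `r + 1`: for `r = 1` they are conic
bundles over the line with the fibres over the roots of `f + k` (and perhaps infinity) degenerate, for `r > 1` fibre products of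
such. For 100% of the integers `k` the Hasse principle holds for `V_k`, and so does weak approximation at the finite places
(to any fixed precision at any finite set of primes).

Proof. Let `T` be a finite set of primes with the small and the bad ones. For `t = u / D` near the local points at `T`
the number `D^(2 deg f) (f(t) + k)` is a product of a fixed divisor, composed of the primes of `T`, and a value of a polynomial
`F(x) + k'`. For almost all `k'` this polynomial has prime values `q` (`Pool/Agent/TH204/WR`, a second moment over `k'`).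
Then the Hilbert symbols `(aᵢ, cᵢ (f(t) + k))` are trivial at all places but `q`, hence at `q` by the product formula, and the
fibre has rational points by the theorem of Hasse and Minkowski, and one can move them close to the local ones. Finally, up to a
set of density zero of `k`, local solubility at `p` implies that there is a `p`-adic point of bounded height and not too close to
the degenerate fibres: otherwise `-k` is `p`-adically close to a critical value of `f`. If the degree of `f` is odd and all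
`cᵢ = 1` then there are local points for all `k`, so that for 100% of all `k` there is a rational point. -/

set_option autoImplicit false

namespace Pool.Agent.Results.MP_d4938b_nt.AlmostAllConicBundles

open Finset Polynomial Filter Topology

instance (p : Nat.Primes) : Fact (p : ℕ).Prime := ⟨p.2⟩

/-- the point `(t, y, z)` with coordinates in the field `F` lies on `V_k` -/
def OnV {r : ℕ} (f : ℤ[X]) (a c : Fin r → ℤ) (k : ℤ) {F : Type} [Field F] (t : F) (y z : Fin r → F) : Prop :=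
  aeval t f + (k : F) ≠ 0 ∧ ∀ i, y i ^ 2 - (a i : F) * z i ^ 2 = (c i : F) * (aeval t f + (k : F))

/-- `V_k` has a real point -/
def RealPt {r : ℕ} (f : ℤ[X]) (a c : Fin r → ℤ) (k : ℤ) : Prop := ∃ (t : ℝ) (y z : Fin r → ℝ), OnV f a c k t y z

/-- `V_k` has a point over `ℚ_p` for all primes `p` -/
def PadicPts {r : ℕ} (f : ℤ[X]) (a c : Fin r → ℤ) (k : ℤ) : Prop :=
  ∀ p : Nat.Primes, ∃ (t : ℚ_[(p : ℕ)]) (y z : Fin r → ℚ_[(p : ℕ)]), OnV f a c k t y z

/-- weak approximation of level `N` at the primes of `T`: for all families of `p`-adic points `(t, y, z)` of `V_k`, `p` in `T`,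
with coordinates of absolute value at most `p ^ N` and `|f(t) + k| ≥ p ^ (-N)` there is a rational point of `V_k` whose
coordinates are at the distance at most `p ^ (-N)` from those of the given point, for all `p` in `T`. For `T = ∅` this says
that `V_k` has a rational point. -/
def WA {r : ℕ} (f : ℤ[X]) (a c : Fin r → ℤ) (T : Finset Nat.Primes) (N : ℕ) (k : ℤ) : Prop :=
  ∀ (t : (p : Nat.Primes) → ℚ_[(p : ℕ)]) (y z : (p : Nat.Primes) → Fin r → ℚ_[(p : ℕ)]),
    (∀ p ∈ T, OnV f a c k (t p) (y p) (z p) ∧ ‖t p‖ ≤ ((p : ℕ) : ℝ) ^ N ∧ (∀ i, ‖y p i‖ ≤ ((p : ℕ) : ℝ) ^ N) ∧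
      (∀ i, ‖z p i‖ ≤ ((p : ℕ) : ℝ) ^ N) ∧ (((p : ℕ) : ℝ) ^ N)⁻¹ ≤ ‖aeval (t p) f + (k : ℚ_[(p : ℕ)])‖) →
    ∃ (s : ℚ) (Y Z : Fin r → ℚ), OnV f a c k s Y Z ∧ ∀ p ∈ T, ‖(s : ℚ_[(p : ℕ)]) - t p‖ ≤ (((p : ℕ) : ℝ) ^ N)⁻¹ ∧
      ∀ i, ‖(Y i : ℚ_[(p : ℕ)]) - y p i‖ ≤ (((p : ℕ) : ℝ) ^ N)⁻¹ ∧ ‖(Z i : ℚ_[(p : ℕ)]) - z p i‖ ≤ (((p : ℕ) : ℝ) ^ N)⁻¹

open Classical in
theorem result (r : ℕ) (f : ℤ[X]) (hf : 2 ≤ f.natDegree) (a c : Fin r → ℤ) (ha : ∀ i, a i ≠ 0) (hc : ∀ i, c i ≠ 0)
    (T : Finset Nat.Primes) (N : ℕ) :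
    Tendsto (fun X : ℕ => (#{k ∈ Icc (-(X : ℤ)) X | ¬ (RealPt f a c k → PadicPts f a c k → WA f a c T N k)} : ℝ) / X)
      atTop (𝓝 0) ∧
    ((∀ p : Nat.Primes, ((p : ℕ) ≤ f.natDegree ∨ ((p : ℕ) : ℤ) ∣ f.leadingCoeff * ∏ i, (a i * c i)) → p ∈ T) →
      ∀ U : ℕ, ∃ X₀ : ℕ, ∀ X : ℕ, X₀ ≤ X →
        (#{k ∈ Icc (-(X : ℤ)) X | ¬ (RealPt f a c k → WA f a c T N k)} : ℝ) ≤ X / Real.log X ^ U) ∧
    (Odd f.natDegree → (∀ i, c i = 1) →
      Tendsto (fun X : ℕ => (#{k ∈ Icc (-(X : ℤ)) X | ¬ WA f a c T N k} : ℝ) / X) atTop (𝓝 0)) := by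
  suffices main : Tendsto (fun X : ℕ => (#{k ∈ Icc (-(X : ℤ)) X | ¬ (RealPt f a c k → PadicPts f a c k → WA f a c T N k)} : ℝ) / X)
      atTop (𝓝 0) by
    refine ⟨main, fun hT U => Pool.Agent.TH204.HP.quant f hf a c ha hc T N hT U, fun ho hc1 => ?_⟩
    have e : ∀ k : ℤ, (RealPt f a c k → PadicPts f a c k → WA f a c T N k) ↔ WA f a c T N k := fun k =>
      have h := Pool.Agent.TH204.HP.odd_pts f (by omega) ho a c hc1 k
      ⟨fun h1 => h1 h.1 h.2, fun h1 _ _ => h1⟩
    simpa only [e] using main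
  rw [Metric.tendsto_atTop]
  intro ε hε
  obtain ⟨X0, h⟩ := Pool.Agent.TH204.HP.density f hf a c ha hc T N (ε / 2) (by linarith)
  refine ⟨max X0 1, fun X hX => ?_⟩
  have h1 := h X ((le_max_left _ _).trans hX)
  have hX1 : (1 : ℝ) ≤ X := by exact_mod_cast (le_max_right _ _).trans hX
  rw [Real.dist_eq, sub_zero, abs_of_nonneg (by positivity), div_lt_iff₀ (by linarith)]
  refine lt_of_le_of_lt h1 ?_
  nlinarith

end Pool.Agent.Results.MP_d4938b_nt.AlmostAllConicBundles
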