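import Pool.Agent.TH728.ZC.Cov
import Pool.Agent.TH728.ZC.NF
import Pool.Agent.TH377.HB.Comp
import Pool.Agent.TH377.Dyn.Box

/-!
# MP_d4938b_nt: covers of projective spaces without adelic points

Let `K` be a number field, `d ≥ 2`, `b ∈ O_K`, and let `g` be a polynomial of degree `d` over `O_K`.
For `r ≥ 0`, for `n w = d` and for ANY forms `f_j` of degree `(n - j) w` in `x_0, …, x_r` over `O_K`
(`0 ≤ j < n`) we consider the cover

  `X : b (y^n + f_{n-1}(x) y^(n-1) + … + f_1(x) y + f_0(x)) = Res(g, x_0 + x_1 T + … + x_r T^r)`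

of degree `n` of the projective space of dimension `r` (a hypersurface of degree `d` in the weighted
projective space with weights `1, …, 1, w`).  The resultant is, up to a factor, the norm form
`N(x_0 + x_1 θ + … + x_r θ^r)` of `K(θ)` over `K`, where `θ` is a root of `g`.  As the `f_j` are
arbitrary, the members with a given `(b, g)` are Zariski dense in the family of all hypersurfaces of
degree `d` in the weighted projective space; so most of them are smooth.  A smooth `X` is a Fano
variety, so rationally connected, if `d - w ≤ r`.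

We prove: for 100% of the vectors `(b, g)` there is a prime `v` of `K` such that for all `r`, all `n`
and `w`, ALL forms `f_j`, all prime numbers `l` and all `a ≥ 0` with

  `(r + 1) lᵃ ≤ l^{v_l(d)}` and `l^(a + 1) ∣ n`

the degrees of all zero-cycles on `X` over the completion `K_v` are divisible by `l^(a + 1)`.  In
particular `X` has no adelic points if `l ∣ n` and `r < l^{v_l(d)}` for a prime number `l`.  For
example, if `d` is a power of `l` and `n ≥ 2`, then this holds for all `r < d`, so also for the Fano
varieties with `d - w ≤ r < d` (double covers of `P^r` branched along hypersurfaces of degree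
`d = 2^j`, `d / 2 ≤ r < d`: del Pezzo surfaces of degree two, quartic double solids, …; cubic surfaces
for `n = d = 3`, `r = 2`).

Proof.  Let `v` be a prime that divides `b` exactly once, such that `g` is irreducible of degree `d`
modulo `v`.  Let `M` be a finite extension of `K_v` whose degree is not divisible by `l^(a + 1)`.  Over
the residue field of `M` the irreducible factors of `g` have degrees divisible by `l^{v_l(d) - a} > r`,
so the value of `Res(g, x)` is `d X`, where `X` is the smallest value of the coordinates of `x`.  If `Y`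
is the value of `y` and `e` that of `b`, then `d X ≠ e + n Y`, because `l^(a + 1)` does not divide `e`.
The value of `b f_j(x) y^j` is at least `e + (n - j) w X + j Y`, which is larger than the smaller one
of `d X` and `e + n Y`.  So the equation has no solution.
-/

set_option autoImplicit false

open NumberField Filter Topology IsDedekindDomain

namespace Pool.Agent.Results.MP_d4938b_nt.CoversWithoutAdelicPoints

universe u w

/-- The polynomial `g = c_1 + c_2 T + … + c_{d+1} T^d`.  The entry `c_0` is `b`. -/
noncomputable def poly {R : Type u} [CommRing R] {d : ℕ} (c : Fin (d + 2) → R) : Polynomial R :=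
  ∑ i : Fin (d + 1), Polynomial.C (c i.succ) * Polynomial.X ^ (i : ℕ)

/-- The polynomial `x_0 + x_1 T + … + x_r T^r`, whose coefficients are variables. -/
noncomputable def generic (R : Type u) [CommRing R] (r : ℕ) :
    Polynomial (MvPolynomial (Fin (r + 1)) R) :=
  ∑ i : Fin (r + 1), Polynomial.monomial (i : ℕ) (MvPolynomial.X i)

/-- The form `Res(g, x_0 + x_1 T + … + x_r T^r)` of degree `d` (resultant of polynomials of the formal
degrees `d` and `r`). -/
noncomputable def normForm {R : Type u} [CommRing R] {d : ℕ} (r : ℕ) (c : Fin (d + 2) → R) :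
    MvPolynomial (Fin (r + 1)) R :=
  Polynomial.resultant ((poly c).map MvPolynomial.C) (generic R r) d r

/-- `m` is the degree of a zero-cycle on the cover `β (y^n + ∑_j f_j(x) y^j) = F(x)` over the field
`κ`: there are finitely many finite extensions `M_i` of `κ`, points of the cover over the `M_i` and
integers `a_i` such that `m = ∑ a_i [M_i : κ]`.  (A point over `M_i` gives a closed point whose degree
divides `[M_i : κ]`, and a closed point gives a point over its residue field, so these are the degrees
of the zero-cycles.  For `β ≠ 0` and forms `f_j`, `F` of positive degrees `x = 0` would imply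
`y = 0`.) -/
def IsCycleDegree {κ : Type u} [Field κ] {r n : ℕ} (β : κ)
    (f : Fin n → MvPolynomial (Fin (r + 1)) κ) (F : MvPolynomial (Fin (r + 1)) κ) (m : ℤ) : Prop :=
  ∃ (N : ℕ) (M : Fin N → IntermediateField κ (AlgebraicClosure κ)) (a : Fin N → ℤ),
    (∀ i, FiniteDimensional κ (M i)) ∧
    (∀ i, ∃ (x : Fin (r + 1) → M i) (y : M i), x ≠ 0 ∧
      algebraMap κ (M i) β * (y ^ n + ∑ j : Fin n, MvPolynomial.aeval x (f j) * y ^ (j : ℕ)) =
        MvPolynomial.aeval x F) ∧
    m = ∑ i, a i * (Module.finrank κ (M i) : ℤ)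

/-- The vectors `c = (b, g)` that do not have the following property: `b ≠ 0`, and there is a prime
`v` of `K` such that for all `r`, all `n` and `w` with `n w = d`, all forms `f_j` of degree
`w (n - j)` and all prime numbers `l` and `a ≥ 0` with `(r + 1) lᵃ ≤ l^{v_l(d)}` and `l^(a + 1) ∣ n` the
degrees of the zero-cycles over `K_v` on the cover are divisible by `l^(a + 1)`. -/
def Exceptional (K : Type u) [Field K] [NumberField K] (d : ℕ) : Set (Fin (d + 2) → 𝓞 K) :=
  {c | ¬ (c 0 ≠ 0 ∧ ∃ v : HeightOneSpectrum (𝓞 K), ∀ r n w : ℕ, n * w = d →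
    ∀ f : Fin n → MvPolynomial (Fin (r + 1)) (𝓞 K), (∀ j, (f j).IsHomogeneous (w * (n - j))) →
      ∀ l a : ℕ, l.Prime → (r + 1) * l ^ a ≤ l ^ padicValNat l d → l ^ (a + 1) ∣ n →
        ∀ m : ℤ, IsCycleDegree (algebraMap (𝓞 K) (v.adicCompletion K) (c 0))
          (fun j => MvPolynomial.map (algebraMap (𝓞 K) (v.adicCompletion K)) (f j))
          (MvPolynomial.map (algebraMap (𝓞 K) (v.adicCompletion K)) (normForm r c)) m →
          (l : ℤ) ^ (a + 1) ∣ m)}

/-- Density zero: for every `ε > 0` there is an ideal `I ≠ 0` such that `E` lies in at most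
`ε #(O_K/I)ᴺ` residue classes modulo `I`. -/
def DensityZero {K : Type u} [Field K] {N : ℕ} (E : Set (Fin N → 𝓞 K)) : Prop :=
  ∀ ε : ℝ, 0 < ε → ∃ I : Ideal (𝓞 K), I ≠ ⊥ ∧
    (Set.ncard ((fun (t : Fin N → 𝓞 K) i => Ideal.Quotient.mk I (t i)) '' E) : ℝ) ≤
      ε * (Nat.card (𝓞 K ⧸ I) : ℝ) ^ N

/-- The vectors all of whose entries have coordinates of absolute value at most `B` in the integral
basis `ω`. -/
def Box {K : Type u} [Field K] {J : Type w} (ω : Module.Basis J ℤ (𝓞 K)) (N B : ℕ) :
    Set (Fin N → 𝓞 K) :=
  {c | ∀ i j, |ω.repr (c i) j| ≤ (B : ℤ)}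

section proof

open Pool.Agent.TH377.Dyn Pool.Agent.TH377.Sup Pool.Agent.TH377.Hyp Pool.Agent.TH377.HB
open Pool.Agent.TH728.ZC Pool.Agent.W858.SF

/-- the value of the norm form -/
lemma eval_normForm {R S : Type*} [CommRing R] [CommRing S] {d : ℕ} (r : ℕ) (c : Fin (d + 2) → R)
    (f : R →+* S) (x : Fin (r + 1) → S) :
    MvPolynomial.eval₂ f x (normForm r c) = rs ((poly c).map f) d x := by
  change MvPolynomial.eval₂Hom f x _ = _
  have h1 : normForm r c = rs ((poly c).map MvPolynomial.C) d (fun i => MvPolynomial.X i) := rfl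
  rw [h1, rs_map, Polynomial.map_map]
  congr 1
  · congr 1
    ext a
    simp
  · funext i
    simp

/-- no points over extensions of the completion -/
lemma no_pt {K : Type u} [Field K] [NumberField K] {d : ℕ} (hd : 2 ≤ d) (c : Fin (d + 2) → 𝓞 K)
    (v : HeightOneSpectrum (𝓞 K)) (hv : AtPrime v c) (r n w : ℕ) (hn : n * w = d)
    (f : Fin n → MvPolynomial (Fin (r + 1)) (𝓞 K)) (hf : ∀ j, (f j).IsHomogeneous (w * (n - j)))
    (l a : ℕ) (hl : l.Prime)
    (hla : (r + 1) * l ^ a ≤ l ^ padicValNat l d) (hln : l ^ (a + 1) ∣ n) (M : Type u) [Field M]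
    [Algebra (v.adicCompletion K) M] [FiniteDimensional (v.adicCompletion K) M]
    (hM : padicValNat l (Module.finrank (v.adicCompletion K) M) ≤ a) (x : Fin (r + 1) → M)
    (hx : x ≠ 0) (y : M) :
    algebraMap (v.adicCompletion K) M (algebraMap (𝓞 K) (v.adicCompletion K) (c 0)) *
      (y ^ n + ∑ j : Fin n, MvPolynomial.aeval x (MvPolynomial.map
        (algebraMap (𝓞 K) (v.adicCompletion K)) (f j)) * y ^ (j : ℕ)) ≠
      MvPolynomial.aeval x (MvPolynomial.map (algebraMap (𝓞 K) (v.adicCompletion K))
        (normForm r c)) := by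
  obtain ⟨h1, h2, h3⟩ := hv
  have hcz : CharZero (v.adicCompletion K) :=
    charZero_of_injective_algebraMap (algebraMap K (v.adicCompletion K)).injective
  set ι := algebraMap (𝓞 K) (v.adicCompletionIntegers K) with hι
  have h5 : (poly c).map (Ideal.Quotient.mk v.asIdeal) =
      pol fun i => Ideal.Quotient.mk v.asIdeal (c i.succ) := pol_map _ _
  have hirr : Irreducible (((poly c).map ι).map (IsLocalRing.residue _)) := by
    refine irr_red v _ ?_
    rw [h5]
    exact h3.2
  have hdeg : (((poly c).map ι).map (IsLocalRing.residue _)).natDegree = d := by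
    rw [deg_red, h5]
    exact pol_natDegree _ fun h => h3.1 (Ideal.Quotient.eq_zero_iff_mem.1 h)
  have hdeg' : ((poly c).map ι).natDegree = d := by
    refine le_antisymm ?_ ?_
    · exact Polynomial.natDegree_map_le.trans (pol_natDegree_le _)
    · exact hdeg.symm.le.trans Polynomial.natDegree_map_le
  have hn0 : n ≠ 0 := by
    rintro rfl
    omega
  intro h0
  refine cov_no_point (K := v.adicCompletion K) (M := M) r d n w l a (by omega)
    (Nat.pos_of_ne_zero hn0) hn hl hM hla hln (ι (c 0)) (irr_comp v (c 0) h1 h2) ((poly c).map ι)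
    hdeg' hdeg hirr (fun j => MvPolynomial.map ι (f j)) (fun j => (hf j).map _) x hx y ?_
  have hc : ((algebraMap (v.adicCompletion K) M).comp
      (algebraMap (v.adicCompletionIntegers K) (v.adicCompletion K))).comp ι =
      (algebraMap (v.adicCompletion K) M).comp (algebraMap (𝓞 K) (v.adicCompletion K)) := rfl
  simp only [MvPolynomial.aeval_def, MvPolynomial.eval₂_map] at h0
  rw [eval_normForm] at h0
  simp only [MvPolynomial.eval₂_map]
  rw [Polynomial.map_map, hc]
  exact h0

/-- the vectors with a good prime are not exceptional -/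
theorem good {K : Type u} [Field K] [NumberField K] {d : ℕ} (hd : 2 ≤ d)
    (c : Fin (d + 2) → 𝓞 K) (v : HeightOneSpectrum (𝓞 K)) (hv : AtPrime v c) :
    c ∉ Exceptional K d := by
  intro hexc
  apply hexc
  refine ⟨?_, v, ?_⟩
  · intro h
    have h2 := hv.2.1
    rw [h] at h2
    exact h2 (zero_mem _)
  intro r n w hn f hf l a hl hla hln m hm
  obtain ⟨N, M, t, hM, hx, rfl⟩ := hm
  have hfact : Fact l.Prime := ⟨hl⟩
  refine Finset.dvd_sum fun i _ => Dvd.dvd.mul_left ?_ _
  have hfin := hM i
  have hn0 : Module.finrank (v.adicCompletion K) (M i) ≠ 0 := by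
    have : 0 < Module.finrank (v.adicCompletion K) (M i) := Module.finrank_pos
    exact this.ne'
  have h4 : l ^ (a + 1) ∣ Module.finrank (v.adicCompletion K) (M i) := by
    rw [padicValNat_dvd_iff_le hn0]
    by_contra h5
    obtain ⟨x, y, hx0, hx1⟩ := hx i
    exact no_pt hd c v hv r n w hn f hf l a hl hla hln (M i) (by omega) x hx0 y hx1
  exact_mod_cast h4

end proof

/-- Let `K` be a number field and `d ≥ 2`.  For all vectors `(b, g)` over `O_K`, where `g` is a
polynomial of degree `d`, outside a set of density zero, `b ≠ 0` and there is a prime `v` of `K` such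
that for all `r`, all `n` and `w` with `n w = d`, all forms `f_j` of degree `w (n - j)` in `r + 1`
variables and all prime numbers `l` and `a ≥ 0` with `(r + 1) lᵃ ≤ l^{v_l(d)}` and `l^(a + 1) ∣ n` the
degrees of all zero-cycles over `K_v` on the cover
`b (y^n + f_{n-1}(x) y^(n-1) + … + f_0(x)) = Res(g, x_0 + x_1 T + … + x_r T^r)` of the projective space
of dimension `r` are divisible by `l^(a + 1)`. -/
theorem result (K : Type u) [Field K] [NumberField K] (d : ℕ) (hd : 2 ≤ d) :
    DensityZero (Exceptional K d) ∧
      ∀ (J : Type w) [Fintype J] (ω : Module.Basis J ℤ (𝓞 K)),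
        Tendsto (fun B : ℕ => ((Exceptional K d ∩ Box ω (d + 2) B).ncard : ℝ) /
          ((Box ω (d + 2) B).ncard : ℝ)) atTop (𝓝 0) := by
  have key : Pool.Agent.TH120.Sec.DZ (d + 2) (Exceptional K d) := by
    refine Pool.Agent.TH377.Dyn.DZ.mono (Pool.Agent.TH728.ZC.dz_atPrime K d hd) ?_
    rintro c hc ⟨v, hv⟩
    exact good hd c v hv hc
  exact ⟨key, fun J _ ω => Pool.Agent.TH377.Dyn.box_tendsto _ key ω⟩

end Pool.Agent.Results.MP_d4938b_nt.CoversWithoutAdelicPoints
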